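import Pool.Agent.Lib_helper12.HE.Defs
import Pool.Agent.Lib_helper68.PV.B1a

/-! Project HE (MP_b08f5f_an), block GL (second half): the motion of the normalised datum,
conservation of the energy and of `Gam N`. -/

set_option autoImplicit false

namespace Pool.Agent.Lib_helper12.HE

open MeasureTheory Filter Topology Set
open scoped ComplexConjugate ENNReal
open Pool.Agent.Lib_helper25.PV (Conf vel Motion centre inertia NC VFlow)

noncomputable section

theorem GL_sum_centre {N : ℕ} (hN : 1 ≤ N) (z : Conf N) : ∑ i, (z i - centre z) = 0 := by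
  have h0 : (N : ℂ) ≠ 0 := by exact_mod_cast (by omega : N ≠ 0)
  rw [Finset.sum_sub_distrib, Finset.sum_const, Finset.card_univ, Fintype.card_fin, nsmul_eq_mul,
    centre]
  field_simp
  ring

/-- the inertia about the centre -/
theorem GL_inertia {N : ℕ} (hN : 1 ≤ N) (z : Conf N) :
    ∑ i, ‖z i - centre z‖ ^ 2 = inertia z - N * ‖centre z‖ ^ 2 := by
  have h1 : ∀ i, ‖z i - centre z‖ ^ 2 =
      ‖z i‖ ^ 2 - ‖centre z‖ ^ 2 - 2 * inner ℝ (z i - centre z) (centre z) := by
    intro i
    have h2 := norm_add_sq_real (z i - centre z) (centre z)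
    rw [sub_add_cancel] at h2
    linarith
  rw [Finset.sum_congr rfl fun i _ => h1 i, Finset.sum_sub_distrib, Finset.sum_sub_distrib,
    Finset.sum_const, Finset.card_univ, Fintype.card_fin, nsmul_eq_mul, ← Finset.mul_sum,
    ← sum_inner, GL_sum_centre hN, inner_zero_left, mul_zero, sub_zero, inertia]

theorem GL_rad_flow {N : ℕ} (hN : 1 ≤ N) (V : VFlow N) (z : Conf N) (t : ℝ) :
    rad (V.φ t z) = rad z := by
  unfold rad
  rw [GL_inertia hN, GL_inertia hN, V.inert, V.cen]

/-- the motion of the normalised datum -/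
theorem GL_nrm {N : ℕ} (hN : 2 ≤ N) (V : VFlow N) {z : Conf N} (_hz : Function.Injective z)
    (hr : 0 < rad z) (t : ℝ) : nrm (V.φ t z) = V.φ (t / rad z ^ 2) (nrm z) := by
  have h0 : ((rad z : ℝ) : ℂ) ≠ 0 := by exact_mod_cast hr.ne'
  have h1 : z = fun i => ((rad z : ℂ) • nrm z) i + centre z := by
    funext i
    simp only [Pi.smul_apply, nrm, smul_eq_mul]
    rw [mul_inv_cancel_left₀ h0, sub_add_cancel]
  have h2 : V.φ t z = fun i => ((rad z : ℂ) • V.φ (t / rad z ^ 2) (nrm z)) i + centre z := by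
    conv_lhs => rw [h1]
    rw [V.trans, V.scale _ hr]
  funext i
  rw [nrm, GL_rad_flow (by omega) V, V.cen, h2]
  simp only [Pi.smul_apply, smul_eq_mul, add_sub_cancel_right]
  rw [inv_mul_cancel_left₀ h0]

theorem GL_gam {N : ℕ} (hN : 2 ≤ N) {z : Conf N} (hz : Function.Injective z) :
    0 < rad z ∧ nrm z ∈ Gam N := by
  have hN0 : (0 : ℝ) < N := by exact_mod_cast (by omega : 0 < N)
  have hpos : 0 < ∑ i, ‖z i - centre z‖ ^ 2 := by
    by_contra hcon
    have h0 : ∑ i, ‖z i - centre z‖ ^ 2 = 0 :=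
      le_antisymm (not_lt.1 hcon) (Finset.sum_nonneg fun i _ => by positivity)
    rw [Finset.sum_eq_zero_iff_of_nonneg (fun i _ => by positivity)] at h0
    have h1 : ∀ i, z i = centre z := by
      intro i
      have := h0 i (Finset.mem_univ i)
      have h2 : ‖z i - centre z‖ = 0 := by simpa using this
      exact sub_eq_zero.1 (norm_eq_zero.1 h2)
    have h3 : (⟨0, by omega⟩ : Fin N) = ⟨1, by omega⟩ := hz (by rw [h1, h1 ⟨1, _⟩])
    simp at h3
  have hr : 0 < rad z := by
    unfold rad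
    exact Real.sqrt_pos.2 (div_pos hpos hN0)
  have hr0 : ((rad z : ℝ) : ℂ) ≠ 0 := by exact_mod_cast hr.ne'
  refine ⟨hr, ?_, ?_, ?_⟩
  · intro i j hij
    simp only [nrm] at hij
    have := mul_left_cancel₀ (inv_ne_zero hr0) hij
    exact hz (sub_left_injective this)
  · simp only [nrm]
    rw [← Finset.mul_sum, GL_sum_centre (by omega), mul_zero]
  · have h1 : ∀ i, ‖nrm z i‖ ^ 2 = (rad z ^ 2)⁻¹ * ‖z i - centre z‖ ^ 2 := by
      intro i
      rw [nrm, norm_mul, norm_inv, Complex.norm_real, Real.norm_of_nonneg hr.le, mul_pow, inv_pow]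
    rw [Finset.sum_congr rfl fun i _ => h1 i, ← Finset.mul_sum]
    have h2 : rad z ^ 2 = (∑ i, ‖z i - centre z‖ ^ 2) / N := by
      unfold rad
      rw [Real.sq_sqrt (by positivity)]
    rw [mul_div_assoc, ← h2, inv_mul_cancel₀ (by positivity)]

theorem GL_ham {N : ℕ} (V : VFlow N) {z : Conf N} (hz : Function.Injective z) (t : ℝ) :
    ham (V.φ t z) = ham z := by
  have hm := V.motion z hz
  have h1 : ∀ s : ℝ, HasDerivAt (fun s => ham (V.φ s z)) 0 s := by
    intro s
    have h2 : HasDerivAt (fun s => V.φ s z) (vel (V.φ s z)) s := hasDerivAt_pi.2 (hm s).2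
    have h3 := (Pool.Agent.Lib_helper25.PV.B1a_energy h2 (hm s).1).const_mul
      (-(1 / (4 * Real.pi)))
    rw [mul_zero] at h3
    exact h3
  have h4 := is_const_of_deriv_eq_zero (fun s => (h1 s).differentiableAt)
    (fun s => (h1 s).deriv) t 0
  simpa [V.zero] using h4

theorem GL_Gam_inv {N : ℕ} (V : VFlow N) {y : Conf N} (hy : y ∈ Gam N) (t : ℝ) :
    V.φ t y ∈ Gam N := by
  obtain ⟨h1, h2, h3⟩ := hy
  have hN : N ≠ 0 := by
    rintro rfl
    simp at h3
  have hN0 : (N : ℂ) ≠ 0 := by exact_mod_cast hN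
  refine ⟨(V.motion y h1 t).1, ?_, ?_⟩
  · have h4 := V.cen t y
    unfold centre at h4
    rw [h2, zero_div, div_eq_zero_iff] at h4
    exact h4.resolve_right hN0
  · have h4 := V.inert t y
    unfold inertia at h4
    rw [h4]
    exact h3

end

end Pool.Agent.Lib_helper12.HE
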